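import Mathlib
set_option autoImplicit false
namespace Pool.Agent.Results.MP_041d76_gt.Counter
open Set Topology Filter TopologicalSpace
universe u v

def InCk (Z : Type) [TopologicalSpace Z] : Prop :=
  ∃ (X : Type u) (Y : Type v) (_ : TopologicalSpace X) (_ : TopologicalSpace Y),
    MetrizableSpace X ∧ SeparableSpace X ∧ MetrizableSpace Y ∧
      ∃ e : Z → C(X, Y), IsEmbedding e

lemma basis {X : Type u} {Y : Type v} [TopologicalSpace X] [MetricSpace Y] (f : C(X, Y)) :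
    (𝓝 f).HasBasis (fun p : Set X × ℕ => IsCompact p.1 ∧ True)
      fun p => {g | ∀ x ∈ p.1, dist (g x) (f x) < 1 / ((p.2 : ℝ) + 1)} :=
  nhds_basis_uniformity Metric.uniformity_basis_dist_inv_nat_succ.compactConvergenceUniformity

lemma key {X : Type u} {Y : Type v} [TopologicalSpace X] [MetricSpace Y] (A : Set ℝ)
    (e : C(A, ℝ) → C(X, Y)) (he : IsInducing e) : ∃ φ : Compacts X → ℕ → Set ℝ,
      (∀ n K K', K ≤ K' → φ K n ⊆ φ K' n) ∧ (∀ K n, closure (φ K n) ⊆ A) ∧
        ∀ a ∈ A, ∃ K n, a ∈ φ K n := by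
  refine ⟨fun K n => {y | ∃ h : y ∈ A, ∀ g, (∀ x ∈ K, dist (e g x) (e 0 x) < 1 / ((n : ℝ) + 1)) →
    |g ⟨y, h⟩| ≤ 1}, fun n K K' h y ⟨h1, h2⟩ => ⟨h1, fun g hg => h2 g fun x hx => hg x (h hx)⟩,
    fun K n => ?_, fun a ha => ?_⟩
  · obtain ⟨⟨L, m⟩, ⟨hL, -⟩, h⟩ := (basis (0 : C(A, ℝ))).mem_iff.1
      (he.continuous.continuousAt ((basis (e 0)).mem_of_mem (i := ((K : Set X), n)) ⟨K.isCompact, trivial⟩))
    refine (closure_minimal ?_ (hL.image continuous_subtype_val).isClosed).trans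
      (Subtype.coe_image_subset A L)
    rintro y ⟨h1, h2⟩
    refine ⟨⟨y, h1⟩, by_contra fun h3 => ?_, rfl⟩
    obtain ⟨g, h4, h5, -⟩ := exists_continuous_zero_one_of_isClosed hL.isClosed
      (isClosed_singleton (x := ⟨y, h1⟩)) (disjoint_singleton_right.2 h3)
    have := h2 (g + g) (h fun x hx => by simp [h4 hx]; positivity)
    norm_num [h5 rfl] at this
  · have h : {g : C(A, ℝ) | |g ⟨a, ha⟩| < 1} ∈ 𝓝 0 :=
      (isOpen_lt (by fun_prop) continuous_const).mem_nhds (by simp)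
    rw [he.nhds_eq_comap] at h
    obtain ⟨⟨K, n⟩, ⟨hK, -⟩, h⟩ := ((basis (e 0)).comap e).mem_iff.1 h
    exact ⟨⟨K, hK⟩, n, ha, fun g hg => le_of_lt (h hg)⟩

lemma few (T : Type u) [TopologicalSpace T] [SecondCountableTopology T] (D : Set ℝ → Set T)
    (hD : ∀ A, IsClosed (D A)) : ¬ D.Injective := by
  intro h
  obtain ⟨f, hf⟩ := exists_injective_nat (countableBasis T)
  have h1 : Function.Injective fun A => f '' {B | Disjoint B.1 (D A)} := fun A B hAB => by
    have h2 := Set.ext_iff.1 (hf.image_injective hAB)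
    have h3 (A : Set ℝ) (x : T) : x ∉ D A ↔ ∃ B : countableBasis T, x ∈ B.1 ∧ Disjoint B.1 (D A) :=
      ⟨fun hx => by
        obtain ⟨B, h3, h4, h5⟩ :=
          (isBasis_countableBasis T).exists_subset_of_mem_open hx (hD A).isOpen_compl
        exact ⟨⟨B, h3⟩, h4, subset_compl_iff_disjoint_right.1 h5⟩,
      fun ⟨B, h3, h4⟩ => disjoint_left.1 h4 h3⟩
    refine h (Set.ext fun x => not_iff_not.1 ?_)
    simp only [h3]
    exact exists_congr fun B => and_congr_right' (h2 B)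
  have := Cardinal.mk_le_of_injective h1
  simp only [Cardinal.mk_set, Cardinal.mk_real, Cardinal.mk_nat, Cardinal.two_power_aleph0] at this
  exact (Cardinal.cantor _).not_ge this

theorem result : ∃ (I : Type) (Z : I → Type) (_ : ∀ i, TopologicalSpace (Z i)),
    (∀ i, InCk.{0, 0} (Z i)) ∧ ¬ InCk.{u, v} (Σ i, Z i) := by
  refine ⟨Set ℝ, fun A => C(A, ℝ), inferInstance, fun A => ⟨A, ℝ, inferInstance, inferInstance,
    inferInstance, inferInstance, inferInstance, id, .id⟩, ?_⟩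
  rintro ⟨X, Y, _, _, _, _, _, e, he⟩
  letI := metrizableSpaceMetric X
  letI := metrizableSpaceMetric Y
  have : SecondCountableTopology X := UniformSpace.secondCountable_of_separable X
  choose φ h1 h2 h3 using fun A : Set ℝ =>
    key A _ (he.comp (IsEmbedding.sigmaMk (i := A))).isInducing
  refine few (Compacts X × ℕ × ℝ) (fun A => closure {p | p.2.2 ∈ φ A p.1 p.2.1})
    (fun _ => isClosed_closure) (Function.LeftInverse.injective (g := fun D => (·.2.2) '' D)
      fun A => Subset.antisymm ?_ fun a ha => ?_)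
  · rintro _ ⟨⟨K, n, y⟩, hp, rfl⟩
    obtain ⟨s, hs, hl⟩ := mem_closure_iff_seq_limit.1 hp
    have h4 := Compacts.isCompact_biUnion_coe_of_isCompact hl.fst_nhds.isCompact_insert_range
    refine h2 A ⟨_, h4⟩ n (mem_closure_of_tendsto hl.snd_nhds.snd_nhds ?_)
    filter_upwards [tendsto_pure.1 (nhds_discrete ℕ ▸ hl.snd_nhds.fst_nhds)] with j hj
    exact h1 A n _ _ (subset_biUnion_of_mem (u := fun K : Compacts X => (K : Set X))
      (Or.inr ⟨j, rfl⟩)) (hj ▸ hs j)
  · obtain ⟨K, n, h⟩ := h3 A a ha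
    exact ⟨(K, n, a), subset_closure h, rfl⟩

end Pool.Agent.Results.MP_041d76_gt.Counter
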